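import Mathlib

set_option autoImplicit false

namespace Pool.Agent.H.MP_0f15b2_an

open Set Filter Topology BoundedContinuousFunction unitInterval
open scoped Classical

/-- coordinates -/
inductive Γ : Type
  | inl (n : ℕ × ℕ)
  | inr (N : Set (I × ℝ))

instance : TopologicalSpace Γ := ⊥
instance : DiscreteTopology Γ := ⟨rfl⟩

/-- indicator vectors -/
noncomputable def ind (p : ℕ × ℕ → Prop) (q : Set (I × ℝ) → Prop) : Γ →ᵇ ℝ :=
  ofNormedAddCommGroupDiscrete (fun γ => if (Γ.rec p q γ : Prop) then 1 else 0) 1 fun γ => by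
    split_ifs <;> simp

@[simp] theorem ind_l (p : ℕ × ℕ → Prop) (q : Set (I × ℝ) → Prop) (n : ℕ × ℕ) :
    ind p q (.inl n) = if p n then 1 else 0 := rfl

@[simp] theorem ind_r (p : ℕ × ℕ → Prop) (q : Set (I × ℝ) → Prop) (n : Set (I × ℝ)) :
    ind p q (.inr n) = if q n then 1 else 0 := rfl

/-- node at level k -/
noncomputable def nd (k : ℕ) (t : I) : ℕ := ⌊k * (t : ℝ)⌋₊

/-- subsets of columns and of transversals -/
def adm (N : Set (I × ℝ)) : Prop := (∃ t, ∀ ω ∈ N, ω.1 = t) ∨ InjOn Prod.fst N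

/-- unit vectors -/
noncomputable def e (n : ℕ × ℕ) := ind (· = n) fun _ => False

/-- tails of the density -/
noncomputable def f (m : ℕ) (ω : I × ℝ) :=
  ind (fun n => m ≤ n.1 ∧ nd n.1 ω.1 = n.2) fun N => ω ∈ N ∧ adm N

theorem adm.mono {N M : Set (I × ℝ)} (h : adm N) (k : M ⊆ N) : adm M :=
  h.imp (fun ⟨t, a⟩ => ⟨t, fun ω b => a ω (k b)⟩) (·.mono k)

theorem sep {s t : I} (h : s ≠ t) : ∀ᶠ k in atTop, nd k s ≠ nd k t := by
  have p : 0 < |(s : ℝ) - t| := abs_pos.2 (sub_ne_zero.2 (Subtype.val_injective.ne h))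
  filter_upwards [(tendsto_natCast_atTop_atTop.atTop_mul_const p).eventually_ge_atTop 1] with k hk a
  have b : ∀ u : I, (nd k u : ℝ) ≤ k * u ∧ k * (u : ℝ) < nd k u + 1 := fun u =>
    ⟨Nat.floor_le (mul_nonneg k.cast_nonneg u.2.1), Nat.lt_floor_add_one _⟩
  rw [← Nat.abs_cast k, ← abs_mul, mul_sub] at hk
  exact hk.not_gt (abs_lt.2 ⟨by linarith [b t, a ▸ b s], by linarith [b t, a ▸ b s]⟩)

theorem f_zero (m : ℕ) (ω : I × ℝ) : f 0 ω = ∑ k ∈ Finset.range m, e (k, nd k ω.1) + f m ω := by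
  ext (⟨k, j⟩ | N)
  · simp only [coe_add, Pi.add_apply, BoundedContinuousFunction.sum_apply, f, e, ind_l,
      Prod.mk.injEq, ite_and, Finset.sum_ite_eq, Finset.mem_range, zero_le]
    by_cases h : k < m <;> simp [h, eq_comm, not_le.2, not_lt.1]
  · simp [f, e]

/-- the span of the generators -/
noncomputable def Y : Submodule ℝ (Γ →ᵇ ℝ) := Submodule.span ℝ (range e ∪ range (f 0))

/-- the space -/
def X : Type := Y.topologicalClosure

noncomputable instance : NormedAddCommGroup X := inferInstanceAs (NormedAddCommGroup (Subtype _))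
noncomputable instance : NormedSpace ℝ X := inferInstanceAs (NormedSpace ℝ Y.topologicalClosure)
instance : CompleteSpace X := inferInstanceAs (CompleteSpace Y.topologicalClosure)

/-- coordinate functionals -/
noncomputable def ev (γ : Γ) : X →L[ℝ] ℝ := (evalCLM ℝ γ).comp Y.topologicalClosure.subtypeL

theorem nle {x : X} {C : ℝ} (h : 0 ≤ C) (k : ∀ γ, ‖ev γ x‖ ≤ C) : ‖x‖ ≤ C := (norm_le h).2 k

theorem e_mem (n : ℕ × ℕ) : e n ∈ Y := Submodule.subset_span (.inl ⟨n, rfl⟩)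

theorem f_mem (m : ℕ) (ω : I × ℝ) : f m ω ∈ Y := by
  rw [eq_sub_of_add_eq' (f_zero m ω).symm]
  exact sub_mem (Submodule.subset_span (.inr ⟨ω, rfl⟩)) (sum_mem fun _ _ => e_mem _)

/-- unit vectors in the space -/
noncomputable def E (n : ℕ × ℕ) : X := ⟨e n, Y.le_topologicalClosure (e_mem n)⟩

/-- tails in the space -/
noncomputable def F (m : ℕ) (ω : I × ℝ) : X := ⟨f m ω, Y.le_topologicalClosure (f_mem m ω)⟩

theorem span_good {x : Γ →ᵇ ℝ} (hx : x ∈ Y) :
    (∃ S : Finset (I × ℝ), ∀ N : Set (I × ℝ), Disjoint N S → x (.inr N) = 0) ∧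
      ∀ t, ∀ᶠ k in atTop, x (.inl (k, nd k t)) = x (.inr {ω | ω.1 = t}) := by
  induction hx using Submodule.span_induction with
  | mem x h =>
    rcases h with ⟨n, rfl⟩ | ⟨ω, rfl⟩
    · exact ⟨⟨∅, fun _ _ => if_neg id⟩, fun t => (eventually_gt_atTop n.1).mono fun k hk =>
        (if_neg fun a : _ = n => by simp [← a] at hk).trans (if_neg id).symm⟩
    · refine ⟨⟨{ω}, fun N h => if_neg fun a => disjoint_left.1 h a.1 (by simp)⟩, fun t => ?_⟩
      by_cases h : ω.1 = t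
      · exact .of_forall fun k => (if_pos ⟨zero_le, h ▸ rfl⟩).trans
          (if_pos ⟨h, .inl ⟨t, fun _ => id⟩⟩).symm
      · exact (sep h).mono fun k hk => (if_neg fun a => hk a.2).trans (if_neg fun a => h a.1).symm
  | zero => exact ⟨⟨∅, fun _ _ => rfl⟩, fun _ => .of_forall fun _ => rfl⟩
  | add x y _ _ a b =>
    obtain ⟨⟨S, a1⟩, a2⟩ := a
    obtain ⟨⟨T, b1⟩, b2⟩ := b
    refine ⟨⟨S ∪ T, fun N h => ?_⟩, fun t => ((a2 t).and (b2 t)).mono fun k hk => by simp [hk]⟩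
    rw [Finset.coe_union, disjoint_union_right] at h
    simp [a1 N h.1, b1 N h.2]
  | smul c x _ a =>
    obtain ⟨⟨S, a1⟩, a2⟩ := a
    exact ⟨⟨S, fun N h => by simp [a1 N h]⟩, fun t => (a2 t).mono fun k hk => by simp [hk]⟩

theorem approx (x : X) {ε : ℝ} (hε : 0 < ε) :
    (∃ S : Finset (I × ℝ), ∀ N : Set (I × ℝ), Disjoint N S → |x.1 (.inr N)| < ε) ∧
      ∀ t, ∀ᶠ k in atTop, |x.1 (.inl (k, nd k t)) - x.1 (.inr {ω | ω.1 = t})| < 2 * ε := by
  obtain ⟨y, hy, h⟩ := Metric.mem_closure_iff.1 x.2 ε hε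
  obtain ⟨⟨S, a⟩, b⟩ := span_good hy
  have c : ∀ γ, |x.1 γ - y γ| < ε := fun γ => (dist_coe_le_dist γ).trans_lt h
  refine ⟨⟨S, fun N k => by simpa [a N k] using c (.inr N)⟩, fun t => (b t).mono fun k hk => ?_⟩
  have c1 := abs_lt.1 (c (.inl (k, nd k t)))
  have c2 := abs_lt.1 (c (.inr {ω | ω.1 = t}))
  exact abs_lt.2 ⟨by linarith, by linarith⟩

theorem split (x : X) {N : Set (I × ℝ)} (hN : adm N) (S : Finset (I × ℝ)) (hS : ↑S ⊆ N) :
    x.1 (.inr N) = x.1 (.inr (N \ S)) + ∑ ω ∈ S, x.1 (.inr {ω}) := by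
  have := ContinuousLinearMap.eqOn_closure_span (f := evalCLM ℝ (Γ.inr N))
    (g := evalCLM ℝ (Γ.inr (N \ S)) + ∑ ω ∈ S, evalCLM ℝ (Γ.inr {ω}))
    (s := range e ∪ range (f 0)) (by
      rintro _ (⟨n, rfl⟩ | ⟨ω, rfl⟩)
      · simp [e]
      · have : ∀ ω, adm {ω} := fun ω => .inr (injOn_singleton _ _)
        by_cases h : ω ∈ S <;> simp [f, hN, hN.mono sdiff_subset, this, h, @hS ω]) x.2
  simpa using this

theorem coef (x : X) {t : I} (h : ∀ k, x.1 (.inl (k, nd k t)) = 1) :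
    ∃ i, x.1 (.inr {(t, i)}) ≠ 0 := by
  by_contra! k
  obtain ⟨⟨S, a⟩, b⟩ := approx x (ε := 1 / 3) (by norm_num)
  obtain ⟨l, c⟩ := (b t).exists
  rw [h, split x (N := {ω | ω.1 = t}) (.inl ⟨t, fun _ => id⟩) (S.filter (·.1 = t)) (by simp), Finset.sum_eq_zero
    fun ω hω => by rw [← k ω.2, ← (Finset.mem_filter.1 hω).2]] at c
  have := a ({ω | ω.1 = t} \ ↑(S.filter (·.1 = t))) (disjoint_left.2 fun ω d e => d.2 (by
    simpa using ⟨e, d.1⟩))
  linarith [(abs_lt.1 c).2, (abs_lt.1 this).2]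

theorem trap (g : I → X) (G : Set I) (hG : ∀ t ∈ G, ∀ k, (g t).1 (.inl (k, nd k t)) = 1) :
    ∃ N : ℕ × ℕ → Set (I × ℝ), ∀ t ∈ G, ∃ n, (g t).1 (.inr (N n)) ≠ 0 := by
  choose! i hi using fun t ht => coef (g t) (hG t ht)
  choose! S hS using fun t ht => (approx (g t) (abs_pos.2 (hi t ht))).1
  choose k hk using fun t => (((S t).filter (·.1 ≠ t)).eventually_all.2 fun ω hω =>
    sep (Finset.mem_filter.1 hω).2).exists
  refine ⟨fun n => {ω | ω.2 = i ω.1 ∧ nd n.1 ω.1 = n.2}, fun t ht => ⟨(k t, nd (k t) t), ?_⟩⟩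
  rw [split _ (.inr fun a b c d e => Prod.ext e (by rw [b.1, d.1, e])) {(t, i t)} (by simp),
    Finset.sum_singleton]
  refine fun z => (hS t ht _ (disjoint_left.2 fun ω a b => ?_)).ne (by
    rw [eq_neg_of_add_eq_zero_left z, abs_neg])
  refine hk t ω (Finset.mem_filter.2 ⟨b, fun c => a.2 ?_⟩) a.1.2
  simpa using Prod.ext c (by rw [a.1.1, c])

theorem count {α β : Type} (T : Finset α) (J : α → Finset β) {k : ℕ} (hT : T.card = k)
    (hJ : ∀ t ∈ T, (J t).card = k) (R : α → β → Prop)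
    (h : (∀ s ∈ T, ∀ t ∈ T, ∀ i j, R s i → R t j → s = t) ∨ ∀ t i j, R t i → R t j → i = j) :
    ‖∑ t ∈ T, ∑ i ∈ J t, (if R t i then 1 else 0 : ℝ)‖ ≤ k := by
  simp only [Finset.sum_boole, ← Nat.cast_sum, Real.norm_natCast, Nat.cast_le]
  rcases h with h | h
  · by_cases z : ∃ s ∈ T, ∃ i, R s i
    · obtain ⟨s, a, i, b⟩ := z
      rw [Finset.sum_eq_single_of_mem s a fun t c d => Finset.card_eq_zero.2
        (Finset.filter_false_of_mem fun j _ e => d (h t c s a j i e b))]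
      exact (Finset.card_filter_le _ _).trans (hJ s a).le
    · exact (Finset.sum_eq_zero fun t c => Finset.card_eq_zero.2
        (Finset.filter_false_of_mem fun j _ e => z ⟨t, c, j, e⟩)).trans_le zero_le
  · simpa [hT] using Finset.sum_le_card_nsmul T _ 1 fun t _ => Finset.card_le_one.2
      fun a b c d => h t a c (Finset.mem_filter.1 b).2 (Finset.mem_filter.1 d).2

theorem grid (φ : X →L[ℝ] ℝ) {ε : ℝ} (hε : 0 < ε) :
    {t | {i | ∃ᶠ m in atTop, ε < φ (F m (t, i))}.Infinite}.Finite := by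
  by_contra h
  obtain ⟨k, hk⟩ := exists_nat_gt (‖φ‖ / ε)
  obtain ⟨T, T1, T2⟩ := Set.Infinite.exists_subset_card_eq h k
  choose! J J1 J2 using fun t (ht : t ∈ T) => (T1 ht).exists_subset_card_eq k
  obtain ⟨M, hM⟩ := eventually_atTop.1 ((T.offDiag).eventually_all.2 fun p hp =>
    sep (Finset.mem_offDiag.1 hp).2.2)
  choose! m m1 m2 using fun t (ht : t ∈ T) i (hi : i ∈ J t) =>
    ((J1 t ht hi).and_eventually (eventually_ge_atTop M)).exists
  have a : ‖∑ t ∈ T, ∑ i ∈ J t, F (m t i) (t, i)‖ ≤ k := nle k.cast_nonneg fun γ => by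
    simp only [map_sum]
    rw [Finset.sum_congr rfl fun t ht => Finset.sum_congr rfl fun i hi =>
      (show ev γ (F (m t i) (t, i)) = if t ∈ T ∧ i ∈ J t ∧ (Γ.rec (fun n => m t i ≤ n.1 ∧
        nd n.1 t = n.2) (fun N => (t, i) ∈ N ∧ adm N) γ : Prop) then 1 else 0 by
        simp only [ht, hi, true_and]
        rfl)]
    refine (count T J T2 J2 _ ?_).trans_eq' (by congr!)
    rcases γ with ⟨l, j⟩ | N
    · exact .inl fun s a t b i j c d => by_contra fun z => hM l ((m2 s a i c.2.1).trans c.2.2.1)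
        (s, t) (Finset.mem_offDiag.2 ⟨a, b, z⟩) (c.2.2.2.trans d.2.2.2.symm)
    · by_cases z : ∃ u, ∀ ω ∈ N, ω.1 = u
      · obtain ⟨u, z⟩ := z
        exact .inl fun s a t b i j c d => (z _ c.2.2.1).trans (z _ d.2.2.1).symm
      · exact .inr fun t i j c d => congrArg Prod.snd
          (c.2.2.2.resolve_left z c.2.2.1 d.2.2.1 rfl)
  have b := (le_abs_self _).trans ((φ.le_opNorm _).trans
    (mul_le_mul_of_nonneg_left a (norm_nonneg _)))
  simp only [map_sum] at b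
  have c := Finset.card_nsmul_le_sum T _ _ fun t ht =>
    (J2 t ht ▸ Finset.card_nsmul_le_sum (J t) _ _ fun i hi => (m1 t ht i hi).le :)
  have k0 : (0 : ℝ) < k := (div_nonneg (norm_nonneg _) hε.le).trans_lt hk
  simp only [T2, nsmul_eq_mul] at c
  rw [div_lt_iff₀ hε] at hk
  nlinarith

theorem tails (φ : X →L[ℝ] ℝ) :
    {t | ¬ {i | ¬ Tendsto (fun m => φ (F m (t, i))) atTop (𝓝 0)}.Countable}.Countable := by
  refine (countable_iUnion fun n : ℕ => ((grid φ (Nat.one_div_pos_of_nat (n := n))).union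
    (grid (-φ) (Nat.one_div_pos_of_nat (n := n)))).countable).mono fun t ht => by_contra fun k => ?_
  simp only [mem_iUnion, mem_union, mem_ofPred_eq, not_exists, not_or, not_infinite] at k
  refine ht ((countable_iUnion fun n => ((k n).1.union (k n).2).countable).mono fun i hi => ?_)
  by_contra z
  simp only [mem_iUnion, mem_union, mem_ofPred_eq, not_exists, not_or, not_frequently, not_lt,
    _root_.neg_apply] at z
  refine hi (NormedAddGroup.tendsto_nhds_zero.2 fun δ hδ => ?_)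
  obtain ⟨n, hn⟩ := exists_nat_one_div_lt hδ
  filter_upwards [(z n).1, (z n).2] with m a b
  exact (abs_le.2 ⟨neg_le.1 b, a⟩).trans_lt hn

end Pool.Agent.H.MP_0f15b2_an
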