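import Pool.Agent.H.MP_0f15b2_an.A

set_option autoImplicit false

namespace Pool.Agent.H.MP_0f15b2_an

open Set Filter Topology BoundedContinuousFunction unitInterval MeasureTheory
open scoped Classical

theorem nd_meas (k : ℕ) : Measurable (nd k) :=
  Nat.measurable_floor.comp (measurable_subtype_coe.const_mul _)

theorem vol_nd {k : ℕ} (hk : 0 < k) (j : ℕ) : volume.real {t | nd k t = j} ≤ 1 / k := by
  have k0 : (0 : ℝ) < k := by exact_mod_cast hk
  refine ENNReal.toReal_le_of_le_ofReal (by positivity) ?_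
  rw [unitInterval.volume_apply]
  refine (measure_mono (t := Icc (j / k : ℝ) ((j + 1) / k)) ?_).trans_eq (by
    rw [Real.volume_Icc, ← sub_div, add_sub_cancel_left])
  rintro _ ⟨t, rfl, rfl⟩
  rw [mem_Icc, div_le_iff₀' k0, le_div_iff₀' k0]
  exact ⟨Nat.floor_le (mul_nonneg k0.le t.2.1), (Nat.lt_floor_add_one _).le⟩

/-- initial parts of the density -/
noncomputable def G (m : ℕ) (t : I) : X := ∑ k ∈ Finset.range m, E (k, nd k t)

theorem G_eq (m : ℕ) (ω : I × ℝ) : G m ω.1 = F 0 ω - F m ω :=
  eq_sub_of_add_eq (Subtype.ext (((f_zero m ω).trans (congrArg (· + f m ω)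
    (map_sum Y.topologicalClosure.subtype (fun k => E (k, nd k ω.1)) _).symm)).symm))

theorem F_le (m : ℕ) (ω : I × ℝ) : ‖F m ω‖ ≤ 1 :=
  nle zero_le_one fun γ => by
    change ‖ite _ _ _‖ ≤ _
    split_ifs <;> simp

theorem G_le (m : ℕ) (t : I) : ‖G m t‖ ≤ 1 + 1 :=
  (congrArg _ (G_eq m (t, 0))).trans_le (norm_sub_le_of_le (F_le _ _) (F_le _ _))

theorem G_sm (m : ℕ) : StronglyMeasurable (G m) :=
  Finset.stronglyMeasurable_fun_sum _ fun k _ =>
    (StronglyMeasurable.of_discrete (f := fun j => E (k, j))).comp_measurable (nd_meas k)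

theorem ev_G (m k j : ℕ) (t : I) :
    ev (.inl (k, j)) (G m t) = if k < m then if nd k t = j then 1 else 0 else 0 := by
  have : ∀ n n', ev (.inl n') (E n) = if n' = n then 1 else 0 := fun _ _ => by
    exact (ind_l _ (fun _ => False) _).trans (by congr)
  simp only [G, map_sum, this, Prod.mk.injEq, ite_and, Finset.sum_ite_eq, Finset.mem_range,
    eq_comm (a := j)]

theorem ev_G' (m : ℕ) (N : Set (I × ℝ)) (t : I) : ev (.inr N) (G m t) = 0 := by
  rw [G, map_sum]
  exact Finset.sum_eq_zero fun _ _ => if_neg id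

variable {Ω : Type} [MeasurableSpace Ω] {μ : Measure Ω} [IsFiniteMeasure μ] {φ : Ω → I}
  (hφ : MeasurePreserving φ μ volume)

variable (μ φ) in
/-- values of the vector measure -/
noncomputable def v (A : Set Ω) : Γ →ᵇ ℝ :=
  ofNormedAddCommGroupDiscrete (Γ.rec (fun n => μ.real ({ω | nd n.1 (φ ω) = n.2} ∩ A)) fun _ => 0)
    (μ.real A) fun γ => by
      rcases γ with n | N
      · exact (Real.norm_of_nonneg measureReal_nonneg).trans_le (measureReal_mono inter_subset_right)
      · simp

theorem v_le (A : Set Ω) : ‖v μ φ A‖ ≤ μ.real A := (norm_le measureReal_nonneg).2 fun γ => by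
  rcases γ with n | N
  · exact (Real.norm_of_nonneg measureReal_nonneg).trans_le (measureReal_mono inter_subset_right)
  · exact norm_zero.trans_le measureReal_nonneg

include hφ

theorem G_int (m : ℕ) : Integrable (fun ω => G m (φ ω)) μ :=
  .of_bound ((G_sm m).comp_measurable hφ.measurable).aestronglyMeasurable _
    (.of_forall fun _ => G_le _ _)

theorem v_lim (A : Set Ω) :
    Tendsto (fun m => (∫ ω in A, G m (φ ω) ∂μ).1) atTop (𝓝 (v μ φ A)) := by
  refine tendsto_iff_norm_sub_tendsto_zero.2 (squeeze_zero' (.of_forall fun _ => norm_nonneg _)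
    ((eventually_gt_atTop 0).mono fun m hm => (norm_le (by positivity)).2 fun γ => ?_)
    (tendsto_one_div_atTop_nhds_zero_nat (𝕜 := ℝ)))
  change ‖ev γ _ - v μ φ A γ‖ ≤ _
  rw [← (ev γ).integral_comp_comm (G_int hφ m).integrableOn]
  rcases γ with ⟨k, j⟩ | N
  · have s : MeasurableSet {t | nd k t = j} := nd_meas k (measurableSet_singleton j)
    change ‖_ - μ.real (φ ⁻¹' {t | nd k t = j} ∩ A)‖ ≤ _
    simp only [ev_G]
    split_ifs with h
    · rw [← measureReal_restrict_apply (hφ.measurable s), ← integral_indicator_one (hφ.measurable s)]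
      simp [Set.indicator]
    · rw [integral_zero, zero_sub, norm_neg, Real.norm_of_nonneg measureReal_nonneg]
      refine (measureReal_mono inter_subset_left).trans ((hφ.measureReal_preimage
        s.nullMeasurableSet).trans_le ((vol_nd (by omega) j).trans ?_))
      gcongr
      omega
  · change ‖_ - 0‖ ≤ _
    simp [ev_G']

/-- the vector measure -/
noncomputable def ν : VectorMeasure Ω X :=
  let w : Set Ω → X := fun A => ⟨v μ φ A, Y.isClosed_topologicalClosure.mem_of_tendsto
    (v_lim hφ A) (.of_forall fun _ => Subtype.prop _)⟩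
  { measureOf' := fun A => if MeasurableSet A then w A else 0
    empty' := (if_pos .empty).trans (norm_le_zero_iff.1 ((v_le _).trans_eq measureReal_empty))
    not_measurable' := fun _ h => if_neg h
    m_iUnion' := fun s h1 h2 => by
      simp only [h1, MeasurableSet.iUnion h1, if_true]
      have a : Summable fun i => w (s i) := .of_norm_bounded (g := fun i => μ.real (s i))
        (by simpa [h1] using (μ.toSignedMeasure.m_iUnion h1 h2).summable) fun i => v_le _
      convert a.hasSum
      refine Subtype.ext (BoundedContinuousFunction.ext fun γ =>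
        HasSum.unique ?_ ((ev γ).hasSum a.hasSum))
      rcases γ with n | N
      · have m : MeasurableSet {ω | nd n.1 (φ ω) = n.2} :=
          (nd_meas _).comp hφ.measurable (measurableSet_singleton _)
        have := (μ.restrict {ω | nd n.1 (φ ω) = n.2}).toSignedMeasure.m_iUnion h1 h2
        simp only [Measure.toSignedMeasure_apply_measurable, h1, MeasurableSet.iUnion h1,
          measureReal_restrict_apply' m, inter_comm _ {ω | nd n.1 (φ ω) = n.2}] at this
        exact this
      · exact hasSum_zero }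

theorem ν_val {A : Set Ω} (hA : MeasurableSet A) : (ν hφ A).1 = v μ φ A :=
  congrArg (fun x : X => x.1) (if_pos hA)

theorem ν_lim {A : Set Ω} (hA : MeasurableSet A) :
    Tendsto (fun m => ∫ ω in A, G m (φ ω) ∂μ) atTop (𝓝 (ν hφ A)) :=
  tendsto_subtype_rng.2 (ν_val hφ hA ▸ v_lim hφ A)

theorem ν_var (A : Set Ω) (hA : MeasurableSet A) : μ A = ⨆ (s : Finset (Set Ω))
    (_ : (∀ B ∈ s, MeasurableSet B ∧ B ⊆ A) ∧ (s : Set (Set Ω)).PairwiseDisjoint id),
    ∑ B ∈ s, ((‖ν hφ B‖₊ : NNReal) : ENNReal) := by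
  have a : ∀ B, MeasurableSet B → ((‖ν hφ B‖₊ : NNReal) : ENNReal) = μ B := fun B hB => by
    rw [← ofReal_measureReal, ← enorm_eq_nnnorm, ← ofReal_norm]
    change ENNReal.ofReal ‖(ν hφ B).1‖ = _
    rw [ν_val hφ hB]
    refine congrArg _ ((v_le _).antisymm (((v μ φ B).apply_le_norm (.inl (0, 0))).trans_eq' ?_))
    change μ.real ({ω | nd 0 (φ ω) = 0} ∩ B) = _
    simp [nd]
  refine (le_iSup₂_of_le {A} (by simpa) (by simp [a A hA])).antisymm (iSup₂_le fun s hs => ?_)
  rw [Finset.sum_congr rfl fun B hB => a B (hs.1 B hB).1]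
  exact (measure_biUnion_finset hs.2 fun B hB => (hs.1 B hB).1).symm.trans_le
    (measure_mono (iUnion₂_subset fun B hB => (hs.1 B hB).2))

omit hφ

theorem nodens : ¬ ∃ g : I → X, ∀ ψ : X →L[ℝ] ℝ, Integrable (fun ω => ψ (g ω)) volume ∧
    ∀ A : Set I, MeasurableSet A → ψ (ν (.id volume) A) = ∫ ω in A, ψ (g ω) := by
  rintro ⟨g, hg⟩
  have a : ∀ k j, ∀ᵐ t, ev (.inl (k, j)) (g t) = {t | nd k t = j}.indicator 1 t := fun k j => by
    have s : MeasurableSet {t | nd k t = j} := nd_meas k (measurableSet_singleton j)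
    refine Integrable.ae_eq_of_forall_setIntegral_eq _ _ (hg _).1
      ((integrable_const _).indicator s) fun A hA _ => ?_
    rw [← (hg _).2 A hA, integral_indicator_one s, measureReal_restrict_apply s]
    exact DFunLike.congr_fun (ν_val _ hA) _
  have b : ∀ N, ∀ᵐ t, ev (.inr N) (g t) = 0 := fun N =>
    (hg _).1.ae_eq_zero_of_forall_setIntegral_eq_zero fun A hA _ =>
      ((hg _).2 A hA).symm.trans (DFunLike.congr_fun (ν_val _ hA) _)
  obtain ⟨N, hN⟩ := trap g {t | ∀ k, ev (.inl (k, nd k t)) (g t) = 1} fun _ => id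
  obtain ⟨t, c, d⟩ := ((ae_all_iff.2 fun k => ae_all_iff.2 (a k)).and
    (ae_all_iff.2 fun n => b (N n))).exists
  obtain ⟨n, hn⟩ := hN t fun k => (c k _).trans (indicator_of_mem (by rfl) _)
  exact hn (d n)

theorem perf0 {α : Type} [TopologicalSpace α] [PolishSpace α] [MeasurableSpace α] [BorelSpace α]
    (ρ : Measure α) [IsFiniteMeasure ρ] {h : α → ℝ} (hh : Continuous h) :
    ∃ B : Set ℝ, MeasurableSet B ∧ B ⊆ range h ∧ ρ (h ⁻¹' B) = ρ univ := by
  choose K _ K1 K2 using fun n : ℕ => MeasurableSet.univ.exists_isCompact_sdiff_lt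
    (measure_ne_top ρ _) (ε := (n : ENNReal)⁻¹) (by simp)
  refine ⟨⋃ n, h '' K n, .iUnion fun n => ((K1 n).image hh).measurableSet,
    iUnion_subset fun n => image_subset_range _ _, measure_eq_measure_of_null_sdiff
    (subset_univ _) (le_zero_iff.1 (ge_of_tendsto' ENNReal.tendsto_inv_nat_nhds_zero fun n =>
      (measure_mono (sdiff_subset_sdiff_right fun x hx => ?_)).trans (K2 n).le))⟩
  exact mem_iUnion.2 ⟨n, x, hx, rfl⟩

theorem perf (h : I → ℝ) (hh : Measurable h) :
    ∃ B : Set ℝ, MeasurableSet B ∧ B ⊆ range h ∧ volume (h ⁻¹' B) = volume (univ : Set I) := by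
  have := BorelSpace.measurable_eq (α := I)
  have p : PolishSpace I := inferInstance
  obtain ⟨t', a, b, c⟩ := hh.exists_continuous
  exact @perf0 I t' c _ (@BorelSpace.mk I t' _ (this.trans
    (borel_eq_borel_of_le c p a).symm)) _ _ _ b

end Pool.Agent.H.MP_0f15b2_an
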