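import Pool.Agent.H.MP_0f15b2_an.B

set_option autoImplicit false

namespace Pool.Agent.H.MP_0f15b2_an

open Set Filter Topology unitInterval MeasureTheory

/-- the large space -/
def Ω : Type := I × ℝ

/-- base of a set -/
def B (A : Set Ω) : Set I := {t | ∀ᶠ i in cocountable, ((t, i) : I × ℝ) ∈ A}

instance : CountableInterFilter (cocountable : Filter ℝ) :=
  cardinalInterFilter_aleph_one_iff.1 inferInstance

instance : (cocountable : Filter ℝ).NeBot := ⟨fun h => not_countable_univ (by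
  simpa using mem_cocountable.1 (empty_mem_iff_bot.2 h))⟩

theorem mem_B {A : Set Ω} {t : I} : t ∈ B A ↔ ∀ᶠ i in cocountable, ((t, i) : I × ℝ) ∈ A := Iff.rfl

theorem B_disj {A C : Set Ω} (h : Disjoint A C) : Disjoint (B A) (B C) :=
  disjoint_left.2 fun _ a b => ((mem_B.1 a).and (mem_B.1 b)).exists.elim fun _ c =>
    disjoint_left.1 h c.1 c.2

theorem B_iUnion {s : ℕ → Set Ω} (h : ∀ n t, t ∈ B (s n) ∨ t ∈ B (s n)ᶜ) :
    B (⋃ n, s n) = ⋃ n, B (s n) ∧ ∀ t, t ∈ B (⋃ n, s n) ∨ t ∈ B (⋃ n, s n)ᶜ := by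
  have a : ∀ t, t ∈ ⋃ n, B (s n) → t ∈ B (⋃ n, s n) := fun t ht =>
    (mem_iUnion.1 ht).elim fun n k => mem_B.2 ((mem_B.1 k).mono fun i hi => mem_iUnion.2 ⟨n, hi⟩)
  have b : ∀ t, t ∉ ⋃ n, B (s n) → t ∈ B (⋃ n, s n)ᶜ := fun t ht =>
    mem_B.2 ((eventually_countable_forall.2 fun n => mem_B.1 ((h n t).resolve_left fun k =>
      ht (mem_iUnion.2 ⟨n, k⟩))).mono fun i hi k => (mem_iUnion.1 k).elim hi)
  exact ⟨Subset.antisymm (fun t ht => by_contra fun k =>
    disjoint_left.1 (B_disj disjoint_compl_right) ht (b t k)) a, fun t => (em _).imp (a t) (b t)⟩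

theorem B_empty : B ∅ = ∅ := disjoint_self.1 (B_disj disjoint_bot_left)

instance : MeasurableSpace Ω where
  MeasurableSet' A := (∀ t, t ∈ B A ∨ t ∈ B Aᶜ) ∧ MeasurableSet (B A)
  measurableSet_empty := ⟨fun _ => .inr (mem_B.2 (.of_forall fun _ => id)), B_empty ▸ .empty⟩
  measurableSet_compl A h := ⟨fun t => by simpa [or_comm] using h.1 t, by
    convert h.2.compl
    exact Subset.antisymm (B_disj disjoint_compl_left).subset_compl_right
      fun t => (h.1 t).resolve_left⟩
  measurableSet_iUnion s h := ⟨(B_iUnion fun n => (h n).1).2,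
    (B_iUnion fun n => (h n).1).1 ▸ .iUnion fun n => (h n).2⟩

/-- the measure on the large space -/
noncomputable def μ : Measure Ω := .ofMeasurable (fun A _ => volume (B A)) (by simp [B_empty])
  fun s h1 h2 => by
    rw [(B_iUnion fun n => (h1 n).1).1, measure_iUnion (f := fun n => B (s n))
      (fun a b c => B_disj (h2 c)) fun n => (h1 n).2]

theorem μ_eq {A : Set Ω} (h : MeasurableSet A) : μ A = volume (B A) :=
  Measure.ofMeasurable_apply A h

/-- projection -/
def pr (ω : Ω) : I := ω.1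

theorem B_pr (C : Set I) : B (pr ⁻¹' C) = C := Set.ext fun t => mem_B.trans (eventually_const (p := t ∈ C))

theorem mp : MeasurePreserving pr μ volume := by
  have : Measurable pr := fun C h => ⟨fun t => by
    rw [← preimage_compl, B_pr, B_pr]; exact em _, (B_pr C).symm ▸ h⟩
  exact ⟨this, Measure.ext fun C h => by rw [Measure.map_apply this h, μ_eq (this h), B_pr]⟩

instance : IsFiniteMeasure μ := ⟨(μ_eq .univ).trans_lt (measure_lt_top _ _)⟩

theorem ν_B {A : Set Ω} (h : MeasurableSet A) : ν mp A = ν (.id volume) (B A) := by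
  refine Subtype.ext ((ν_val _ h).trans (Eq.trans ?_ (ν_val _ h.2).symm))
  ext (n | N)
  · refine congrArg ENNReal.toReal ((μ_eq (((nd_meas _).comp mp.measurable
      (measurableSet_singleton _)).inter h)).trans (congrArg _ (Set.ext fun t => ?_)))
    exact mem_B.trans (eventually_and.trans
      (and_congr_left' (eventually_const (p := nd n.1 t = n.2))))
  · rfl

theorem perf' (f : Ω → ℝ) (hf : Measurable f) :
    ∃ D : Set ℝ, MeasurableSet D ∧ D ⊆ range f ∧ μ (f ⁻¹' D) = μ univ := by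
  choose h hh using fun t => exists_eventuallyEq_const_of_forall_separating
    (l := cocountable) (f := fun i => f (t, i)) MeasurableSet fun U hU => (hf hU).1 t
  have a : ∀ U, B (f ⁻¹' U) = h ⁻¹' U := fun U => Set.ext fun t =>
    (eventually_congr ((hh t).mono fun i hi => Iff.of_eq (congrArg (· ∈ U) hi))).trans
      (eventually_const (p := h t ∈ U))
  obtain ⟨D, b, c, d⟩ := perf h fun U hU => a U ▸ (hf hU).2
  refine ⟨D, b, c.trans ?_, by
    rw [μ_eq (hf b), a, d, ← mp.measure_preimage MeasurableSet.univ.nullMeasurableSet, preimage_univ]⟩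
  rintro _ ⟨t, rfl⟩
  exact (hh t).exists.elim fun i hi => ⟨_, hi⟩

theorem dens (ψ : X →L[ℝ] ℝ) : Integrable (fun ω : Ω => ψ (F 0 ω)) μ ∧
    ∀ A : Set Ω, MeasurableSet A → ψ (ν mp A) = ∫ ω in A, ψ (F 0 ω) ∂μ := by
  have a : ∀ᵐ ω ∂μ, Tendsto (fun m => ψ (G m (pr ω))) atTop (𝓝 (ψ (F 0 ω))) := by
    let C := {t | ¬ {i | ¬ Tendsto (fun m => ψ (F m (t, i))) atTop (𝓝 0)}.Countable}
    let W : Set Ω := {ω | ω.1 ∉ C ∧ ¬ Tendsto (fun m => ψ (F m ω)) atTop (𝓝 0)}
    have b : ∀ t, t ∈ B Wᶜ := fun t => by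
      by_cases h : t ∈ C
      · exact mem_B.2 (.of_forall fun i k => k.1 h)
      · exact Eventually.mono (mem_cocountable.2 (not_not.1 h)) fun i k l => l.2 k
    have c : B W = ∅ := eq_empty_of_forall_notMem fun t h =>
      disjoint_left.1 (B_disj disjoint_compl_right) h (b t)
    filter_upwards [compl_mem_ae_iff.2 ((μ_eq ⟨fun t => .inr (b t), c ▸ .empty⟩).trans
      (c ▸ measure_empty)), mp.quasiMeasurePreserving.ae (compl_mem_ae_iff.2
        ((tails ψ).measure_zero volume))] with ω d e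
    simpa [pr, G_eq _ ω] using (not_not.1 fun k => d ⟨e, k⟩).const_sub (ψ (F 0 ω))
  have m := fun m => (ψ.integrable_comp (G_int mp m)).aestronglyMeasurable
  refine ⟨.of_bound (aestronglyMeasurable_of_tendsto_ae _ m a) _
    (.of_forall fun ω => ψ.le_opNorm_of_le (F_le 0 ω)), fun A hA => tendsto_nhds_unique
    ((ψ.continuous.tendsto _).comp (ν_lim mp hA)) ?_⟩
  simp only [Function.comp_def, ← ψ.integral_comp_comm (G_int mp _).integrableOn]
  exact tendsto_integral_of_dominated_convergence _ (fun n => (m n).restrict) (integrable_const _)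
    (fun n => .of_forall fun ω => ψ.le_opNorm_of_le (G_le n _)) (ae_restrict_of_ae a)

end Pool.Agent.H.MP_0f15b2_an
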